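import Pool.Agent.Y472.K.Defs

/-!
# Inequalities for the rate of a pair: G2, G3, G5

Symmetric pairs (`ee`), their monotonicity, and the pairs on one side of `1 / 2`.
-/

set_option autoImplicit false

namespace Pool.Agent.Y813.TK

open Set Filter Topology MeasureTheory intervalIntegral
open scoped Real Interval
open Pool.Agent.Y472.K (Lc lf Ep ga Ch yn bs Es Dn ee S_PAR S_JEN S_G2 S_G3 S_G5)

/-! ### Elementary facts -/

/-- `|cos (x + i y)| ≤ cosh y` -/
lemma norm_cos_le (x y : ℝ) : ‖Complex.cos (x + y * Complex.I)‖ ≤ Real.cosh y := by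
  have h := Complex.cos_add (x : ℂ) (y * Complex.I)
  rw [Complex.cos_mul_I, Complex.sin_mul_I] at h
  have hs : ‖Complex.cos (x + y * Complex.I)‖ ^ 2 =
      Real.cos x ^ 2 * Real.cosh y ^ 2 + Real.sin x ^ 2 * Real.sinh y ^ 2 := by
    rw [h, ← Complex.normSq_eq_norm_sq, Complex.normSq_apply]
    simp only [Complex.sub_re, Complex.sub_im, Complex.mul_re, Complex.mul_im, Complex.I_re,
      Complex.I_im, ← Complex.ofReal_cos, ← Complex.ofReal_sin, ← Complex.ofReal_cosh,
      ← Complex.ofReal_sinh, Complex.ofReal_re, Complex.ofReal_im]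
    ring
  have h1 := Real.cosh_sq y
  have h2 := Real.sin_sq_add_cos_sq x
  have h3 := Real.cosh_pos y
  have h4 : ‖Complex.cos (x + y * Complex.I)‖ ^ 2 ≤ Real.cosh y ^ 2 := by
    rw [hs]
    nlinarith [sq_nonneg (Real.sin x), sq_nonneg (Real.cos x)]
  exact abs_le_of_sq_le_sq' h4 h3.le |>.2

/-- the argument of the logarithm in `lf` does not vanish -/
lemma arg_ne {x y : ℝ} (hy : 0 < y) (t : ℝ) :
    2 * Complex.cos (x + y * Complex.I) - 2 * (Real.cos (2 * π * t) : ℂ) ≠ 0 := by
  intro h0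
  have h := Complex.cos_add (x : ℂ) (y * Complex.I)
  rw [Complex.cos_mul_I, Complex.sin_mul_I] at h
  rw [h] at h0
  have hre := congrArg Complex.re h0
  have him := congrArg Complex.im h0
  simp only [Complex.sub_re, Complex.sub_im, Complex.mul_re, Complex.mul_im, Complex.I_re,
      Complex.I_im, ← Complex.ofReal_cos, ← Complex.ofReal_sin, ← Complex.ofReal_cosh,
      ← Complex.ofReal_sinh, Complex.ofReal_re, Complex.ofReal_im, Complex.zero_re,
      Complex.zero_im, Complex.re_ofNat, Complex.im_ofNat] at hre him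
  have hsh : 0 < Real.sinh y := Real.sinh_pos_iff.2 hy
  have hch : 1 < Real.cosh y := Real.one_lt_cosh.2 hy.ne'
  have hs : Real.sin x = 0 := by
    have : Real.sin x * Real.sinh y = 0 := by linarith
    rcases mul_eq_zero.1 this with h | h
    · exact h
    · exact absurd h hsh.ne'
  have hc : Real.cos x ^ 2 = 1 := by
    have := Real.sin_sq_add_cos_sq x
    rw [hs] at this
    linarith
  have hc2 : Real.cos x * Real.cosh y = Real.cos (2 * π * t) := by linarith
  have h5 : Real.cosh y ^ 2 = Real.cos (2 * π * t) ^ 2 := by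
    rw [← hc2, mul_pow, hc, one_mul]
  have h6 : Real.cos (2 * π * t) ^ 2 ≤ 1 := Real.cos_sq_le_one _
  nlinarith

/-- `lf x y` is continuous -/
lemma lf_cont {x y : ℝ} (hy : 0 < y) : Continuous (lf x y) := by
  unfold Pool.Agent.Y472.K.lf
  apply Continuous.log
  · apply Continuous.norm
    apply Continuous.sub continuous_const
    apply Continuous.mul continuous_const
    exact Complex.continuous_ofReal.comp (Real.continuous_cos.comp (by fun_prop))
  · intro t
    exact norm_ne_zero_iff.2 (arg_ne hy t)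

/-- `lf 0 y` -/
lemma lf_zero {y : ℝ} (_hy : 0 < y) (t : ℝ) :
    lf 0 y t = Real.log (2 * Real.cosh y - 2 * Real.cos (2 * π * t)) := by
  unfold Pool.Agent.Y472.K.lf
  have h1 : Complex.cos ((0 : ℝ) + y * Complex.I) = (Real.cosh y : ℂ) := by
    rw [Complex.ofReal_zero, zero_add, Complex.cos_mul_I, Complex.ofReal_cosh]
  rw [h1]
  have h2 : (2 * (Real.cosh y : ℂ) - 2 * (Real.cos (2 * π * t) : ℂ)) =
      ((2 * Real.cosh y - 2 * Real.cos (2 * π * t) : ℝ) : ℂ) := by push_cast; ring
  rw [h2, Complex.norm_real, Real.norm_eq_abs, Real.log_abs]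

/-- the upper bound of `lf` -/
noncomputable def ph (C t : ℝ) : ℝ := Real.log (2 * C + 2 * |Real.cos (2 * π * t)|)

lemma ph_cont {C : ℝ} (hC : 1 ≤ C) : Continuous (ph C) := by
  unfold ph
  apply Continuous.log (by fun_prop)
  intro t
  have := abs_nonneg (Real.cos (2 * π * t))
  positivity

lemma lf_le {x y : ℝ} (hy : 0 < y) (t : ℝ) : lf x y t ≤ ph (Real.cosh y) t := by
  unfold Pool.Agent.Y472.K.lf ph
  apply Real.log_le_log (norm_pos_iff.2 (arg_ne hy t))
  refine (norm_sub_le _ _).trans ?_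
  rw [norm_mul, norm_mul, Complex.norm_real, Real.norm_eq_abs]
  have := norm_cos_le x y
  simp only [Complex.norm_ofNat]
  linarith

lemma ph_reflect (C t : ℝ) : ph C (1 / 2 - t) = ph C t := by
  unfold ph
  have : Real.cos (2 * π * (1 / 2 - t)) = -Real.cos (2 * π * t) := by
    rw [show 2 * π * (1 / 2 - t) = π - 2 * π * t by ring, Real.cos_pi_sub]
  rw [this, abs_neg]

lemma ph_shift (C t : ℝ) : ph C (t - 1 / 2) = ph C t := by
  unfold ph
  have : Real.cos (2 * π * (t - 1 / 2)) = -Real.cos (2 * π * t) := by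
    rw [show 2 * π * (t - 1 / 2) = 2 * π * t - π by ring, Real.cos_sub_pi]
  rw [this, abs_neg]

/-- the pointwise inequality -/
lemma ph_le {C s t : ℝ} (hC : 1 ≤ C) (h0 : 0 ≤ s) (h1 : s ≤ t) (h2 : t ≤ 1 / 2 - s) :
    ph C t ≤ ph C s := by
  unfold ph
  have hpi := Real.pi_pos
  have ha : Real.cos (2 * π * t) ≤ Real.cos (2 * π * s) :=
    Real.cos_le_cos_of_nonneg_of_le_pi (by positivity) (by nlinarith) (by nlinarith)
  have hb : Real.cos (π - 2 * π * s) ≤ Real.cos (2 * π * t) :=
    Real.cos_le_cos_of_nonneg_of_le_pi (by have : 0 ≤ t := h0.trans h1; positivity)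
      (by nlinarith) (by nlinarith)
  rw [Real.cos_pi_sub] at hb
  have hc : |Real.cos (2 * π * t)| ≤ |Real.cos (2 * π * s)| := by
    rw [abs_le]
    have := le_abs_self (Real.cos (2 * π * s))
    constructor <;> linarith
  apply Real.log_le_log
  · have := abs_nonneg (Real.cos (2 * π * t))
    positivity
  · linarith

/-- the left half -/
lemma ph_int_left {C a b : ℝ} (hC : 1 ≤ C) (h0 : 0 ≤ b) (h1 : b ≤ a) (h2 : a + b ≤ 1 / 2) :
    ∫ t in b..a, ph C t ≤ ∫ t in (0 : ℝ)..(a - b), ph C t := by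
  have hc := ph_cont hC
  have hi : ∀ u v : ℝ, IntervalIntegrable (ph C) volume u v := fun u v =>
    hc.intervalIntegrable u v
  have e1 : ∫ t in b..a, ph C t = (∫ t in (0 : ℝ)..a, ph C t) - ∫ t in (0 : ℝ)..b, ph C t :=
    (intervalIntegral.integral_interval_sub_left (hi 0 a) (hi 0 b)).symm
  have e2 : ∫ t in (0 : ℝ)..a, ph C t = (∫ t in (0 : ℝ)..(a - b), ph C t) +
      ∫ t in (a - b)..a, ph C t :=
    (intervalIntegral.integral_add_adjacent_intervals (hi _ _) (hi _ _)).symm
  have e3 : ∫ t in (a - b)..a, ph C t = ∫ s in (0 : ℝ)..b, ph C (s + (a - b)) := by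
    rw [intervalIntegral.integral_comp_add_right (fun t => ph C t)]
    congr 1 <;> ring
  have e4 : ∫ s in (0 : ℝ)..b, ph C (s + (a - b)) ≤ ∫ s in (0 : ℝ)..b, ph C s := by
    apply intervalIntegral.integral_mono_on h0
    · exact (hc.comp (by fun_prop)).intervalIntegrable _ _
    · exact hi _ _
    · intro s hs
      exact ph_le hC hs.1 (by linarith) (by linarith [hs.2])
  linarith

/-- the interval in `[0, 1/2]` -/
lemma ph_int_half {C a b : ℝ} (hC : 1 ≤ C) (h0 : 0 ≤ b) (h1 : b ≤ a) (h2 : a ≤ 1 / 2) :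
    ∫ t in b..a, ph C t ≤ ∫ t in (0 : ℝ)..(a - b), ph C t := by
  rcases le_total (a + b) (1 / 2) with h | h
  · exact ph_int_left hC h0 h1 h
  · have e : ∫ t in b..a, ph C t = ∫ t in (1 / 2 - a)..(1 / 2 - b), ph C t := by
      rw [← intervalIntegral.integral_comp_sub_left (fun t => ph C t)]
      apply intervalIntegral.integral_congr
      intro t _
      exact (ph_reflect C t).symm
    rw [e]
    refine (ph_int_left hC (by linarith) (by linarith) (by linarith)).trans (le_of_eq ?_)
    congr 1; ring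

/-- **G5** -/
theorem g5 : S_G5 := by
  intro x y a b hy hb hba ha hab
  have hC : 1 ≤ Real.cosh y := Real.one_le_cosh y
  have h1 : ∫ t in b..a, lf x y t ≤ ∫ t in b..a, ph (Real.cosh y) t := by
    apply intervalIntegral.integral_mono_on hba
    · exact (lf_cont hy).intervalIntegrable _ _
    · exact (ph_cont hC).intervalIntegrable _ _
    · intro t _
      exact lf_le hy t
  have h2 : ∫ t in b..a, ph (Real.cosh y) t ≤ ∫ t in (0 : ℝ)..(a - b), ph (Real.cosh y) t := by
    rcases hab with h | h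
    · exact ph_int_half hC hb hba h
    · have e : ∫ t in b..a, ph (Real.cosh y) t =
          ∫ t in (b - 1 / 2)..(a - 1 / 2), ph (Real.cosh y) t := by
        rw [← intervalIntegral.integral_comp_sub_right (fun t => ph (Real.cosh y) t)]
        apply intervalIntegral.integral_congr
        intro t _
        exact (ph_shift _ t).symm
      rw [e]
      refine (ph_int_half hC (by linarith) (by linarith) (by linarith)).trans (le_of_eq ?_)
      congr 1; ring
  unfold Pool.Agent.Y472.K.Ep
  have h3 : ∫ s in (0 : ℝ)..(a - b), Real.log (2 * Real.cosh y + 2 * |Real.cos (2 * π * s)|) =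
    ∫ t in (0 : ℝ)..(a - b), ph (Real.cosh y) t := rfl
  rw [h3]
  linarith

/-! ### G2 -/

/-- the integrand of `ee` -/
noncomputable def ps (C s : ℝ) : ℝ := Real.log (2 * C + 2 * Real.cos (2 * π * s))

lemma ps_pos_arg {C : ℝ} (hC : 1 < C) (s : ℝ) : 0 < 2 * C + 2 * Real.cos (2 * π * s) := by
  have := Real.neg_one_le_cos (2 * π * s)
  linarith

lemma ps_cont {C : ℝ} (hC : 1 < C) : Continuous (ps C) := by
  unfold ps
  exact Continuous.log (by fun_prop) (fun s => (ps_pos_arg hC s).ne')

lemma ps_neg (C s : ℝ) : ps C (-s) = ps C s := by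
  unfold ps
  rw [show 2 * π * -s = -(2 * π * s) by ring, Real.cos_neg]

lemma ps_anti {C : ℝ} (hC : 1 < C) : StrictAntiOn (ps C) (Icc 0 (1 / 2)) := by
  intro s hs t ht hst
  unfold ps
  have hpi := Real.pi_pos
  apply Real.log_lt_log (ps_pos_arg hC t)
  have : Real.cos (2 * π * t) < Real.cos (2 * π * s) :=
    Real.cos_lt_cos_of_nonneg_of_le_pi (by have := hs.1; positivity) (by nlinarith [ht.2])
      (by nlinarith)
  linarith

/-- the primitive is midpoint concave -/
lemma th_lt {C u v : ℝ} (hC : 1 < C) (hu : 0 ≤ u) (huv : u < v) (hv : v ≤ 1 / 2) :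
    (∫ s in (0 : ℝ)..u, ps C s) + ∫ s in (0 : ℝ)..v, ps C s <
      2 * ∫ s in (0 : ℝ)..((u + v) / 2), ps C s := by
  have hc := ps_cont hC
  have hi : ∀ u v : ℝ, IntervalIntegrable (ps C) volume u v := fun u v =>
    hc.intervalIntegrable u v
  set m := (u + v) / 2 with hm
  have hum : u < m := by rw [hm]; linarith
  have hmv : m < v := by rw [hm]; linarith
  have e1 : (∫ s in (0 : ℝ)..m, ps C s) - ∫ s in (0 : ℝ)..u, ps C s = ∫ s in u..m, ps C s :=
    intervalIntegral.integral_interval_sub_left (hi 0 m) (hi 0 u)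
  have e2 : (∫ s in (0 : ℝ)..v, ps C s) - ∫ s in (0 : ℝ)..m, ps C s = ∫ s in m..v, ps C s :=
    intervalIntegral.integral_interval_sub_left (hi 0 v) (hi 0 m)
  have e3 : (m - u) * ps C m < ∫ s in u..m, ps C s := by
    have : ∫ s in u..m, (fun _ => ps C m) s < ∫ s in u..m, ps C s := by
      apply intervalIntegral.integral_lt_integral_of_continuousOn_of_le_of_exists_lt hum
        continuousOn_const hc.continuousOn
      · intro s hs
        rcases eq_or_lt_of_le hs.2 with h | h
        · exact le_of_eq (by rw [h])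
        · exact (ps_anti hC ⟨by linarith [hs.1], by linarith⟩ ⟨by linarith, by linarith⟩ h).le
      · exact ⟨u, ⟨le_refl u, hum.le⟩,
          ps_anti hC ⟨hu, by linarith⟩ ⟨by linarith, by linarith⟩ hum⟩
    simpa using this
  have e4 : ∫ s in m..v, ps C s ≤ (v - m) * ps C m := by
    have : ∫ s in m..v, ps C s ≤ ∫ s in m..v, (fun _ => ps C m) s := by
      apply intervalIntegral.integral_mono_on hmv.le (hi _ _) (by simp)
      intro s hs
      rcases eq_or_lt_of_le hs.1 with h | h
      · exact le_of_eq (by rw [h])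
      · exact (ps_anti hC ⟨by linarith, by linarith⟩ ⟨by linarith [hs.1], by linarith [hs.2]⟩ h).le
    simpa using this
  have e5 : v - m = m - u := by rw [hm]; ring
  rw [e5] at e4
  linarith

/-- the integral of `lf 0 y` over `[b, a]` -/
lemma int_lf {y a b : ℝ} (hy : 0 < y) :
    ∫ t in b..a, lf 0 y t = (∫ s in (0 : ℝ)..(a - 1 / 2), ps (Real.cosh y) s) +
      ∫ s in (0 : ℝ)..(1 / 2 - b), ps (Real.cosh y) s := by
  have hC : 1 < Real.cosh y := Real.one_lt_cosh.2 hy.ne'
  have hc := ps_cont hC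
  have hi : ∀ u v : ℝ, IntervalIntegrable (ps (Real.cosh y)) volume u v := fun u v =>
    hc.intervalIntegrable u v
  have e1 : ∫ t in b..a, lf 0 y t = ∫ s in (b - 1 / 2)..(a - 1 / 2), ps (Real.cosh y) s := by
    rw [← intervalIntegral.integral_comp_sub_right (fun t => ps (Real.cosh y) t)]
    apply intervalIntegral.integral_congr
    intro t _
    change lf 0 y t = ps (Real.cosh y) (t - 1 / 2)
    rw [lf_zero hy]
    unfold ps
    rw [show 2 * π * (t - 1 / 2) = 2 * π * t - π by ring, Real.cos_sub_pi]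
    congr 1; ring
  have e2 : ∫ s in (b - 1 / 2)..(0 : ℝ), ps (Real.cosh y) s =
      ∫ s in (0 : ℝ)..(1 / 2 - b), ps (Real.cosh y) s := by
    have := intervalIntegral.integral_comp_neg (a := 0) (b := 1 / 2 - b)
      (fun s => ps (Real.cosh y) s)
    rw [neg_zero, show -(1 / 2 - b) = b - 1 / 2 by ring] at this
    rw [← this]
    apply intervalIntegral.integral_congr
    intro s _
    exact ps_neg _ s
  rw [e1, ← intervalIntegral.integral_add_adjacent_intervals (hi (b - 1 / 2) 0) (hi 0 _), e2]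
  ring

/-- **G2** -/
theorem g2 : S_G2 := by
  intro y a b hy hb hb2 ha2 ha
  have hC : 1 < Real.cosh y := Real.one_lt_cosh.2 hy.ne'
  have key : a + b ≠ 1 → Ep 0 y a b < ee (Real.cosh y) (a - b) := by
    intro hne
    unfold Pool.Agent.Y472.K.Ep Pool.Agent.Y472.K.ee
    rw [int_lf hy]
    have hlt : (∫ s in (0 : ℝ)..(a - 1 / 2), ps (Real.cosh y) s) +
      ∫ s in (0 : ℝ)..(1 / 2 - b), ps (Real.cosh y) s <
      2 * ∫ s in (0 : ℝ)..((a - b) / 2), ps (Real.cosh y) s := by
      rcases lt_or_gt_of_ne (show a - 1 / 2 ≠ 1 / 2 - b by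
        intro h; apply hne; linarith) with h | h
      · have := th_lt hC (by linarith : 0 ≤ a - 1 / 2) h (by linarith)
        rwa [show (a - 1 / 2 + (1 / 2 - b)) / 2 = (a - b) / 2 by ring] at this
      · have := th_lt hC (by linarith : 0 ≤ 1 / 2 - b) h (by linarith)
        rw [show (1 / 2 - b + (a - 1 / 2)) / 2 = (a - b) / 2 by ring] at this
        linarith
    have hps : ∫ s in (0 : ℝ)..((a - b) / 2), Real.log (2 * Real.cosh y + 2 * Real.cos (2 * π * s))
      = ∫ s in (0 : ℝ)..((a - b) / 2), ps (Real.cosh y) s := rfl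
    rw [hps]
    linarith
  have key2 : a + b = 1 → Ep 0 y a b = ee (Real.cosh y) (a - b) := by
    intro h
    unfold Pool.Agent.Y472.K.Ep Pool.Agent.Y472.K.ee
    rw [int_lf hy]
    have hps : ∫ s in (0 : ℝ)..((a - b) / 2), Real.log (2 * Real.cosh y + 2 * Real.cos (2 * π * s))
      = ∫ s in (0 : ℝ)..((a - b) / 2), ps (Real.cosh y) s := rfl
    rw [hps, show a - 1 / 2 = (a - b) / 2 by linarith, show 1 / 2 - b = (a - b) / 2 by linarith]
    ring
  refine ⟨?_, key, key2⟩
  rcases eq_or_ne (a + b) 1 with h | h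
  · exact (key2 h).le
  · exact (key h).le


/-! ### G3 -/

lemma ls_int (a b : ℝ) :
    IntervalIntegrable (fun t => Real.log (2 * Real.sin (π * t))) volume a b := by
  have h : MeromorphicOn (fun t : ℝ => 2 * Real.sin (π * t)) [[a, b]] := by
    intro t _
    apply AnalyticAt.meromorphicAt
    fun_prop
  exact h.intervalIntegrable_log

lemma Lc_cont : Continuous Lc := by
  unfold Pool.Agent.Y472.K.Lc
  exact (intervalIntegral.continuous_primitive (fun a b => ls_int a b) 0).neg

lemma Lc_deriv {δ : ℝ} (h0 : 0 < δ) (h1 : δ < 1) :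
    HasDerivAt Lc (-Real.log (2 * Real.sin (π * δ))) δ := by
  have hpi := Real.pi_pos
  have hs : 0 < Real.sin (π * δ) :=
    Real.sin_pos_of_pos_of_lt_pi (by positivity) (by nlinarith)
  unfold Pool.Agent.Y472.K.Lc
  apply HasDerivAt.neg
  apply intervalIntegral.integral_hasDerivAt_right (ls_int 0 δ)
  · apply Measurable.stronglyMeasurable _ |>.stronglyMeasurableAtFilter
    fun_prop
  · apply ContinuousAt.log (by fun_prop)
    positivity

lemma Lc_one : Lc 1 = 0 := by
  have hpi := Real.pi_pos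
  unfold Pool.Agent.Y472.K.Lc
  have e1 : ∫ t in (0 : ℝ)..1, Real.log (2 * Real.sin (π * t)) =
      π⁻¹ * ∫ u in (0 : ℝ)..π, Real.log (2 * Real.sin u) := by
    have := intervalIntegral.integral_comp_mul_left (a := 0) (b := 1)
      (fun u => Real.log (2 * Real.sin u)) hpi.ne'
    rw [mul_zero, mul_one, smul_eq_mul] at this
    exact this
  have e2 : ∫ u in (0 : ℝ)..π, Real.log (2 * Real.sin u) =
      ∫ u in (0 : ℝ)..π, (Real.log 2 + Real.log (Real.sin u)) := by
    apply intervalIntegral.integral_congr_ae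
    have hae : ∀ᵐ u : ℝ ∂volume, u ≠ π := by
      rw [ae_iff]
      simp
    filter_upwards [hae] with u hu hm
    rw [uIoc_of_le hpi.le] at hm
    have hs : 0 < Real.sin u := Real.sin_pos_of_pos_of_lt_pi hm.1 (lt_of_le_of_ne hm.2 hu)
    rw [Real.log_mul (by norm_num) hs.ne']
  have hls : IntervalIntegrable (fun u : ℝ => Real.log (Real.sin u)) volume 0 π :=
    intervalIntegrable_log_sin
  rw [e1, e2, intervalIntegral.integral_add (by simp) hls, integral_log_sin_zero_pi]
  simp only [intervalIntegral.integral_const, smul_eq_mul, sub_zero]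
  ring

lemma ee_cont {C : ℝ} (hC : 1 < C) : Continuous (ee C) := by
  unfold Pool.Agent.Y472.K.ee
  apply Lc_cont.add
  have h := intervalIntegral.continuous_primitive (μ := volume)
    (fun a b => (ps_cont hC).intervalIntegrable a b) 0
  exact h.comp (by fun_prop : Continuous fun δ : ℝ => δ / 2)

lemma ee_deriv {C δ : ℝ} (hC : 1 < C) (h0 : 0 < δ) (h1 : δ < 1) :
    HasDerivAt (ee C) (-Real.log (2 * Real.sin (π * δ)) +
      1 / 2 * Real.log (2 * C + 2 * Real.cos (π * δ))) δ := by
  have h : HasDerivAt (fun u => ∫ s in (0 : ℝ)..u, ps C s) (ps C (δ / 2)) (δ / 2) :=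
    (ps_cont hC).integral_hasStrictDerivAt 0 (δ / 2) |>.hasDerivAt
  have h2 : HasDerivAt (fun δ : ℝ => δ / 2) (1 / 2) δ := (hasDerivAt_id δ).div_const 2
  have h3 := (Lc_deriv h0 h1).add (h.comp δ h2)
  have h4 : ps C (δ / 2) * (1 / 2) = 1 / 2 * Real.log (2 * C + 2 * Real.cos (π * δ)) := by
    unfold ps
    rw [show 2 * π * (δ / 2) = π * δ by ring]
    ring
  rw [h4] at h3
  exact h3

lemma ee_one {y : ℝ} (hJ : S_JEN) (hy : 0 < y) : ee (Real.cosh y) 1 = y / 2 := by
  unfold Pool.Agent.Y472.K.ee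
  rw [Lc_one, zero_add, ← hJ 0 y hy]
  have e := intervalIntegral.integral_comp_sub_left (a := 0) (b := 1 / 2)
    (fun t => lf 0 y t) (1 / 2)
  rw [sub_zero, sub_self] at e
  rw [← e]
  apply intervalIntegral.integral_congr
  intro t _
  change Real.log (2 * Real.cosh y + 2 * Real.cos (2 * π * t)) = lf 0 y (1 / 2 - t)
  rw [lf_zero hy, show 2 * π * (1 / 2 - t) = π - 2 * π * t by ring, Real.cos_pi_sub]
  congr 1; ring

/-- the sign of the derivative, positive -/
lemma der_pos {C δ : ℝ} (hC : 1 < C) (h0 : 0 < δ) (h1 : δ < 1)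
    (h : 0 < 2 * Real.cos (π * δ) ^ 2 + Real.cos (π * δ) + C - 2) :
    0 < deriv (ee C) δ := by
  have hpi := Real.pi_pos
  have hs : 0 < Real.sin (π * δ) :=
    Real.sin_pos_of_pos_of_lt_pi (by positivity) (by nlinarith)
  rw [(ee_deriv hC h0 h1).deriv]
  have h2 : 2 * Real.log (2 * Real.sin (π * δ)) = Real.log ((2 * Real.sin (π * δ)) ^ 2) := by
    rw [Real.log_pow]; norm_num
  have h3 : Real.log ((2 * Real.sin (π * δ)) ^ 2) < Real.log (2 * C + 2 * Real.cos (π * δ)) := by
    apply Real.log_lt_log (by positivity)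
    have := Real.sin_sq_add_cos_sq (π * δ)
    nlinarith
  linarith

/-- the sign of the derivative, negative -/
lemma der_neg {C δ : ℝ} (hC : 1 < C) (h0 : 0 < δ) (h1 : δ < 1)
    (h : 2 * Real.cos (π * δ) ^ 2 + Real.cos (π * δ) + C - 2 < 0) :
    deriv (ee C) δ < 0 := by
  have hpi := Real.pi_pos
  have hs : 0 < Real.sin (π * δ) :=
    Real.sin_pos_of_pos_of_lt_pi (by positivity) (by nlinarith)
  rw [(ee_deriv hC h0 h1).deriv]
  have h2 : 2 * Real.log (2 * Real.sin (π * δ)) = Real.log ((2 * Real.sin (π * δ)) ^ 2) := by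
    rw [Real.log_pow]; norm_num
  have h3 : Real.log (2 * C + 2 * Real.cos (π * δ)) < Real.log ((2 * Real.sin (π * δ)) ^ 2) := by
    have hc := Real.neg_one_le_cos (π * δ)
    apply Real.log_lt_log (by linarith)
    have := Real.sin_sq_add_cos_sq (π * δ)
    nlinarith
  linarith

/-- **G3** -/
theorem g3 : S_G3 := by
  intro hP hJ n hn
  obtain ⟨g1, g2, c1, c2, hy, hcosh, b1, b2, hcb, -, -, -⟩ := hP n hn
  have hpi := Real.pi_pos
  have hn0 : (4 : ℝ) ≤ n := by exact_mod_cast hn
  have hChg : Ch n = 2 + ga n - 2 * ga n ^ 2 := rfl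
  have hga : ga n = Real.cos (π / n) := rfl
  have hb : Real.cos (π * (1 - 2 * bs n)) = ga n - 1 / 2 := by
    rw [show π * (1 - 2 * bs n) = π - 2 * π * bs n by ring, Real.cos_pi_sub, hcb]; ring
  have hd : Real.cos (π * (1 - 1 / n)) = -ga n := by
    rw [show π * (1 - 1 / (n : ℝ)) = π - π / n by ring, Real.cos_pi_sub, hga]
  have hni : 0 < 1 / (n : ℝ) := by positivity
  have hni2 : 1 / (n : ℝ) ≤ 1 / 4 := one_div_le_one_div_of_le (by norm_num) hn0
  -- comparison of arguments through the cosine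
  have hanti := Real.strictAntiOn_cos
  have hlt : 1 - 2 * bs n < 1 - 1 / n := by
    by_contra hcon
    push Not at hcon
    have hle : π * (1 - 1 / (n : ℝ)) ≤ π * (1 - 2 * bs n) := by
      exact mul_le_mul_of_nonneg_left hcon hpi.le
    have := hanti.antitoneOn ⟨by apply mul_nonneg hpi.le; linarith, by nlinarith⟩
      ⟨by apply mul_nonneg hpi.le; linarith, by nlinarith⟩ hle
    rw [hb, hd] at this
    linarith
  have hfac : ∀ c : ℝ, 2 * c ^ 2 + c + Ch n - 2 = (c + ga n) * (2 * c - 2 * ga n + 1) := by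
    intro c; rw [hChg]; ring
  refine ⟨1 - 1 / n, hlt, by linarith, ?_, ?_, ?_, ?_, ?_⟩
  · have h1 : 17 - 8 * Ch n = (4 * ga n - 1) ^ 2 := by rw [hChg]; ring
    rw [h1, Real.sqrt_sq (by linarith), hd]; ring
  · apply strictMonoOn_of_deriv_pos (convex_Icc _ _) (ee_cont c1).continuousOn
    intro δ hδ
    rw [interior_Icc] at hδ
    apply der_pos c1 hδ.1 (by linarith [hδ.2])
    have : Real.cos (π * (1 - 2 * bs n)) < Real.cos (π * δ) :=
      hanti ⟨by have := hδ.1; positivity, by nlinarith [hδ.2]⟩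
        ⟨by apply mul_nonneg hpi.le; linarith, by nlinarith⟩ (by nlinarith [hδ.2])
    rw [hb] at this
    rw [hfac]
    apply mul_pos <;> linarith
  · apply strictAntiOn_of_deriv_neg (convex_Icc _ _) (ee_cont c1).continuousOn
    intro δ hδ
    rw [interior_Icc] at hδ
    have hδ0 : 0 < δ := by linarith [hδ.1]
    have hδ1 : δ < 1 := by linarith [hδ.2]
    apply der_neg c1 hδ0 hδ1
    have h1 : Real.cos (π * δ) < Real.cos (π * (1 - 2 * bs n)) :=
      hanti ⟨by apply mul_nonneg hpi.le; linarith, by nlinarith⟩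
        ⟨by positivity, by nlinarith [hδ.2]⟩ (by nlinarith [hδ.1])
    have h2 : Real.cos (π * (1 - 1 / n)) < Real.cos (π * δ) :=
      hanti ⟨by positivity, by nlinarith [hδ.2]⟩
        ⟨by apply mul_nonneg hpi.le; linarith, by nlinarith⟩ (by nlinarith [hδ.2])
    rw [hb] at h1
    rw [hd] at h2
    rw [hfac]
    apply mul_neg_of_pos_of_neg <;> linarith
  · apply strictMonoOn_of_deriv_pos (convex_Icc _ _) (ee_cont c1).continuousOn
    intro δ hδ
    rw [interior_Icc] at hδ
    have hδ0 : 0 < δ := by linarith [hδ.1]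
    apply der_pos c1 hδ0 hδ.2
    have h2 : Real.cos (π * δ) < Real.cos (π * (1 - 1 / n)) :=
      hanti ⟨by apply mul_nonneg hpi.le; linarith, by nlinarith⟩
        ⟨by positivity, by nlinarith [hδ.2]⟩ (by nlinarith [hδ.1])
    rw [hd] at h2
    rw [hfac]
    apply mul_pos_of_neg_of_neg <;> linarith
  · have := ee_one hJ hy
    rw [hcosh] at this
    exact this

end Pool.Agent.Y813.TK
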